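import Mathlib

/-!
# Charts of Jordan domains with two boundary arcs

A chart with parameter `m` is a conformal map `φ` of the upper half-plane onto the domain which extends
to a homeomorphism of the closed upper half-plane with the point at infinity onto the closed domain,
`[0, m]` being mapped onto the first arc and `[1, ∞]` onto the second arc.
-/

set_option autoImplicit false

open Set Filter Topology Metric Complex

namespace Pool.Agent.Cardy

/-- charts of Jordan domains with two boundary arcs; `p` is the value at infinity -/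
structure IsChart (D A B : Set ℂ) (m : ℝ) (φ : ℂ → ℂ) (p : ℂ) : Prop where
  holomorphic : DifferentiableOn ℂ φ {z | 0 < z.im}
  image_eq : φ '' {z | 0 < z.im} = D
  continuous : ContinuousOn φ {z | 0 ≤ z.im}
  injective : InjOn φ {z | 0 ≤ z.im}
  infinity : Tendsto φ (Bornology.cobounded ℂ ⊓ 𝓟 {z | 0 ≤ z.im}) (𝓝 p)
  ne_infinity : ∀ z : ℂ, 0 ≤ z.im → φ z ≠ p
  image_A : (fun x : ℝ => φ x) '' Icc 0 m = A
  image_B : insert p ((fun x : ℝ => φ x) '' Ici 1) = B

/-! ### the Cayley map -/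

/-- the Cayley map of the closed upper half-plane into the closed disc -/
noncomputable def cay (z : ℂ) : ℂ := (z - I) / (z + I)

/-- the inverse of the Cayley map -/
noncomputable def yac (w : ℂ) : ℂ := I * (1 + w) / (1 - w)

lemma add_I_ne {z : ℂ} (h : 0 ≤ z.im) : z + I ≠ 0 := by
  intro e
  have := congrArg Complex.im e
  simp at this
  linarith

lemma cay_ne_one {z : ℂ} (h : 0 ≤ z.im) : cay z ≠ 1 := by
  intro e
  unfold cay at e
  rw [div_eq_one_iff_eq (add_I_ne h)] at e
  have h2 : (2 : ℂ) * I = 0 := by linear_combination -e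
  simp at h2

lemma yac_cay {z : ℂ} (h : 0 ≤ z.im) : yac (cay z) = z := by
  have h1 := add_I_ne h
  have h2 := sub_ne_zero.2 (cay_ne_one h).symm
  unfold yac
  rw [div_eq_iff h2]
  unfold cay
  field_simp
  ring

lemma cay_yac {w : ℂ} (h : w ≠ 1) : cay (yac w) = w := by
  have h1 : 1 - w ≠ 0 := sub_ne_zero.2 h.symm
  have h2 : yac w + I ≠ 0 := by
    intro e
    unfold yac at e
    field_simp at e
    have h3 : (2 : ℂ) * I = 0 := by linear_combination e
    simp at h3
  unfold cay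
  rw [div_eq_iff h2]
  unfold yac
  field_simp
  ring

lemma normSq_cay {z : ℂ} (h : 0 ≤ z.im) : ‖cay z‖ ^ 2 = 1 - 4 * z.im / ‖z + I‖ ^ 2 := by
  have h1 : (0:ℝ) < ‖z + I‖ ^ 2 := by
    have := norm_pos_iff.2 (add_I_ne h)
    positivity
  unfold cay
  rw [norm_div, div_pow, eq_sub_iff_add_eq, ← add_div, div_eq_one_iff_eq h1.ne',
    ← Complex.normSq_eq_norm_sq, ← Complex.normSq_eq_norm_sq, Complex.normSq_apply,
    Complex.normSq_apply]
  simp only [sub_re, sub_im, add_re, add_im, I_re, I_im]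
  ring

lemma norm_cay_le {z : ℂ} (h : 0 ≤ z.im) : ‖cay z‖ ≤ 1 := by
  have h1 := normSq_cay h
  have h2 : 0 ≤ 4 * z.im / ‖z + I‖ ^ 2 := by positivity
  nlinarith [norm_nonneg (cay z)]

lemma norm_cay_lt {z : ℂ} (h : 0 < z.im) : ‖cay z‖ < 1 := by
  have h1 := normSq_cay h.le
  have h3 := norm_pos_iff.2 (add_I_ne h.le)
  have h2 : 0 < 4 * z.im / ‖z + I‖ ^ 2 := by positivity
  nlinarith [norm_nonneg (cay z)]

lemma norm_cay_eq {z : ℂ} (h : z.im = 0) : ‖cay z‖ = 1 := by
  have h1 := normSq_cay h.ge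
  rw [h, mul_zero, zero_div, sub_zero] at h1
  nlinarith [norm_nonneg (cay z)]

lemma yac_im_nonneg {w : ℂ} (h : ‖w‖ ≤ 1) : 0 ≤ (yac w).im := by
  rcases eq_or_ne w 1 with rfl | hw
  · simp [yac]
  by_contra hlt
  push Not at hlt
  have h1 : 1 - w ≠ 0 := sub_ne_zero.2 hw.symm
  have e : (yac w).im = (1 - ‖w‖ ^ 2) / ‖1 - w‖ ^ 2 := by
    unfold yac
    rw [← Complex.normSq_eq_norm_sq, ← Complex.normSq_eq_norm_sq, Complex.div_im,
      Complex.normSq_apply w]
    have h3 : normSq (1 - w) ≠ 0 := by rwa [Ne, Complex.normSq_eq_zero]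
    simp only [mul_re, mul_im, I_re, I_im, add_re, add_im, one_re, one_im, sub_re, sub_im]
    field_simp
    ring
  rw [e] at hlt
  have h4 : 0 ≤ (1 - ‖w‖ ^ 2) / ‖1 - w‖ ^ 2 := by
    apply div_nonneg
    · nlinarith [norm_nonneg w]
    · positivity
  linarith

lemma yac_im_pos {w : ℂ} (h : ‖w‖ < 1) : 0 < (yac w).im := by
  have hw : w ≠ 1 := by rintro rfl; simp at h
  rcases (yac_im_nonneg h.le).lt_or_eq with h1 | h1
  · exact h1
  · exfalso
    have := norm_cay_eq h1.symm
    rw [cay_yac hw] at this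
    linarith

lemma continuousOn_cay : ContinuousOn cay {z | 0 ≤ z.im} := by
  unfold cay
  exact (by fun_prop : ContinuousOn (fun z : ℂ => z - I) _).div (by fun_prop) fun z hz => add_I_ne hz

lemma differentiableOn_cay : DifferentiableOn ℂ cay {z | 0 < z.im} := by
  unfold cay
  exact (by fun_prop : DifferentiableOn ℂ (fun z : ℂ => z - I) _).div (by fun_prop)
    fun z hz => add_I_ne (le_of_lt hz)

lemma continuousOn_yac : ContinuousOn yac {w | w ≠ 1} := by
  unfold yac
  exact (by fun_prop : ContinuousOn (fun w : ℂ => I * (1 + w)) _).div (by fun_prop)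
    fun w hw => sub_ne_zero.2 (Ne.symm hw)

lemma differentiableOn_yac : DifferentiableOn ℂ yac (ball 0 1) := by
  unfold yac
  refine (by fun_prop : DifferentiableOn ℂ (fun w : ℂ => I * (1 + w)) _).div (by fun_prop)
    fun w hw => sub_ne_zero.2 ?_
  rintro rfl
  simp at hw

lemma tendsto_cay : Tendsto cay (Bornology.cobounded ℂ) (𝓝 1) := by
  have h1 : Tendsto (fun z : ℂ => z + I) (Bornology.cobounded ℂ) (Bornology.cobounded ℂ) :=
    tendsto_add_const_cobounded I
  have h2 : Tendsto (fun z : ℂ => 1 - 2 * I * (z + I)⁻¹) (Bornology.cobounded ℂ) (𝓝 (1 - 2 * I * 0)) :=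
    tendsto_const_nhds.sub (tendsto_const_nhds.mul (tendsto_inv₀_cobounded.comp h1))
  rw [mul_zero, sub_zero] at h2
  refine h2.congr' ?_
  filter_upwards [Bornology.isBounded_def.1 (Bornology.isBounded_singleton (x := -I))] with z hz
  have h3 : z + I ≠ 0 := fun e => hz (by rw [mem_singleton_iff]; exact eq_neg_of_add_eq_zero_left e)
  unfold cay
  field_simp
  ring

lemma tendsto_yac : Tendsto yac (𝓝[≠] 1) (Bornology.cobounded ℂ) := by
  have h1 : Tendsto (fun w : ℂ => 1 - w) (𝓝[≠] 1) (𝓝[≠] 0) := by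
    rw [tendsto_nhdsWithin_iff]
    constructor
    · have : Tendsto (fun w : ℂ => 1 - w) (𝓝 1) (𝓝 (1 - 1)) := by
        exact (continuous_const.sub continuous_id).tendsto 1
      rw [sub_self] at this
      exact this.mono_left nhdsWithin_le_nhds
    · filter_upwards [self_mem_nhdsWithin] with w hw
      exact sub_ne_zero.2 (Ne.symm hw)
  have h2 : Tendsto (fun w : ℂ => (1 - w)⁻¹) (𝓝[≠] 1) (Bornology.cobounded ℂ) :=
    tendsto_inv₀_nhdsNE_zero.comp h1
  have h3 : Tendsto (fun w : ℂ => 2 * I * (1 - w)⁻¹ + (-I)) (𝓝[≠] 1) (Bornology.cobounded ℂ) :=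
    (tendsto_add_const_cobounded (-I)).comp
      ((tendsto_mul_left_cobounded (by simp : (2 * I : ℂ) ≠ 0)).comp h2)
  refine h3.congr' ?_
  filter_upwards [self_mem_nhdsWithin] with w hw
  have h4 : 1 - w ≠ 0 := sub_ne_zero.2 (Ne.symm hw)
  unfold yac
  field_simp
  ring

lemma cay_image_H : cay '' {z | 0 < z.im} = ball 0 1 := by
  ext w
  constructor
  · rintro ⟨z, hz, rfl⟩
    exact mem_ball_zero_iff.2 (norm_cay_lt hz)
  · intro hw
    rw [mem_ball_zero_iff] at hw
    refine ⟨yac w, yac_im_pos hw, cay_yac ?_⟩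
    rintro rfl
    simp at hw

/-- the Cayley map on the real line -/
lemma cay_real (y : ℝ) : cay y = exp ((Real.pi + 2 * Real.arctan y : ℝ) * I) := by
  have h0 : (0:ℝ) < 1 + y ^ 2 := by positivity
  have h1 : exp ((Real.arctan y : ℝ) * I) = (1 + y * I) / (Real.sqrt (1 + y ^ 2) : ℝ) := by
    rw [exp_mul_I, ← ofReal_cos, ← ofReal_sin, Real.cos_arctan, Real.sin_arctan]
    push_cast
    ring
  have h2 : (((Real.sqrt (1 + y ^ 2) : ℝ) : ℂ)) ^ 2 = 1 + y ^ 2 := by
    rw [← ofReal_pow, Real.sq_sqrt h0.le]; push_cast; ring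
  have h3 : (1 + (y:ℂ) ^ 2) ≠ 0 := by
    have : ((1 + y ^ 2 : ℝ) : ℂ) ≠ 0 := ofReal_ne_zero.2 h0.ne'
    simpa using this
  have h4 : ((y : ℂ) + I) ≠ 0 := add_I_ne (by simp)
  rw [show ((Real.pi + 2 * Real.arctan y : ℝ) : ℂ) * I = (Real.pi : ℂ) * I
    + ((Real.arctan y : ℝ) * I + (Real.arctan y : ℝ) * I) by push_cast; ring, exp_add, exp_pi_mul_I,
    exp_add, h1, ← pow_two, div_pow, h2]
  unfold cay
  rw [neg_mul, one_mul, ← neg_div, div_eq_div_iff h4 h3]
  linear_combination (2 * (y : ℂ) + (y:ℂ)^2 * I + (y:ℂ)^3) * I_sq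

end Pool.Agent.Cardy
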