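import Pool.Agent.Cardy.Chart
import Pool.Agent.Full.Jordan.Quad

/-!
# Every Jordan domain with two disjoint boundary arcs has a chart
-/

set_option autoImplicit false

open Set Filter Topology Metric Complex

namespace Pool.Agent.Cardy

/-- the angle of the image of the real number `y`, starting from `β` -/
noncomputable def ang (β y : ℝ) : ℝ := β + (Real.pi + 2 * Real.arctan y)

/-- the real number with the angle `t` -/
noncomputable def xt (β t : ℝ) : ℝ := Real.tan ((t - β - Real.pi) / 2)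

lemma rot_cay (β y : ℝ) : exp (β * I) * cay y = (Circle.exp (ang β y) : ℂ) := by
  rw [cay_real, ← exp_add, Circle.coe_exp]
  congr 1
  unfold ang
  push_cast
  ring

lemma ang_xt {β t : ℝ} (h1 : β < t) (h2 : t < β + 2 * Real.pi) : ang β (xt β t) = t := by
  unfold ang xt
  rw [Real.arctan_tan (by linarith) (by linarith)]
  ring

lemma ang_mono (β : ℝ) : StrictMono (ang β) := by
  intro x y h
  unfold ang
  have := Real.arctan_strictMono h
  linarith

lemma lt_ang (β y : ℝ) : β < ang β y := by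
  unfold ang
  linarith [Real.neg_pi_div_two_lt_arctan y]

lemma ang_lt (β y : ℝ) : ang β y < β + 2 * Real.pi := by
  unfold ang
  linarith [Real.arctan_lt_pi_div_two y]

lemma xt_lt {β s t : ℝ} (h0 : β < s) (h1 : s < t) (h2 : t < β + 2 * Real.pi) : xt β s < xt β t := by
  rw [← (ang_mono β).lt_iff_lt, ang_xt h0 (h1.trans h2), ang_xt (h0.trans h1) h2]
  exact h1

lemma ang_image_Icc {β s t : ℝ} (h0 : β < s) (h1 : s ≤ t) (h2 : t < β + 2 * Real.pi) :
    ang β '' Icc (xt β s) (xt β t) = Icc s t := by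
  have e1 := ang_xt h0 (h1.trans_lt h2)
  have e2 := ang_xt (h0.trans_le h1) h2
  ext u
  constructor
  · rintro ⟨y, ⟨hy1, hy2⟩, rfl⟩
    have a1 := (ang_mono β).monotone hy1
    have a2 := (ang_mono β).monotone hy2
    rw [e1] at a1
    rw [e2] at a2
    exact ⟨a1, a2⟩
  · rintro ⟨h3, h4⟩
    have e := ang_xt (h0.trans_le h3) (h4.trans_lt h2)
    refine ⟨xt β u, ⟨?_, ?_⟩, e⟩
    · rw [← (ang_mono β).le_iff_le, e1, e]; exact h3
    · rw [← (ang_mono β).le_iff_le, e2, e]; exact h4

lemma ang_image_Ici {β s : ℝ} (h0 : β < s) (h1 : s < β + 2 * Real.pi) :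
    ang β '' Ici (xt β s) = Ico s (β + 2 * Real.pi) := by
  have e1 := ang_xt h0 h1
  ext u
  constructor
  · rintro ⟨y, hy1, rfl⟩
    have a1 := (ang_mono β).monotone hy1
    rw [e1] at a1
    exact ⟨a1, ang_lt β y⟩
  · rintro ⟨h3, h4⟩
    have e := ang_xt (h0.trans_le h3) h4
    refine ⟨xt β u, ?_, e⟩
    rw [mem_Ici, ← (ang_mono β).le_iff_le, e1, e]
    exact h3

/-- the Moebius map of the half-plane onto the disc: affine map, Cayley map, rotation -/
noncomputable def T (β x r : ℝ) (z : ℂ) : ℂ := exp (β * I) * cay (x + r * z)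

section T

variable {β x r : ℝ}

lemma aff_im (x r : ℝ) (z : ℂ) : ((x : ℂ) + r * z).im = r * z.im := by simp

lemma norm_exp' (β : ℝ) : ‖exp (β * I)‖ = 1 := norm_exp_ofReal_mul_I β

lemma T_norm (z : ℂ) : ‖T β x r z‖ = ‖cay (x + r * z)‖ := by
  unfold T
  rw [norm_mul, norm_exp', one_mul]

lemma T_mem (hr : 0 < r) {z : ℂ} (h : 0 ≤ z.im) : T β x r z ∈ closedBall (0:ℂ) 1 := by
  rw [mem_closedBall_zero_iff, T_norm]
  exact norm_cay_le (by rw [aff_im]; positivity)

lemma T_ne (hr : 0 < r) {z : ℂ} (h : 0 ≤ z.im) : T β x r z ≠ exp (β * I) := by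
  unfold T
  intro e
  rw [mul_eq_left₀ (exp_ne_zero _)] at e
  exact cay_ne_one (by rw [aff_im]; positivity) e

lemma T_cont (hr : 0 < r) : ContinuousOn (T β x r) {z | 0 ≤ z.im} := by
  unfold T
  refine continuousOn_const.mul (continuousOn_cay.comp (by fun_prop) ?_)
  intro z hz
  rw [mem_ofPred_eq] at hz ⊢
  rw [aff_im]
  positivity

lemma T_diff (hr : 0 < r) : DifferentiableOn ℂ (T β x r) {z | 0 < z.im} := by
  unfold T
  refine (differentiableOn_const _).mul (differentiableOn_cay.comp (by fun_prop) ?_)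
  intro z hz
  rw [mem_ofPred_eq] at hz ⊢
  rw [aff_im]
  positivity

lemma T_inj (hr : 0 < r) : InjOn (T β x r) {z | 0 ≤ z.im} := by
  intro z hz w hw e
  rw [mem_ofPred_eq] at hz hw
  unfold T at e
  have e1 := mul_left_cancel₀ (exp_ne_zero _) e
  have e2 := congrArg yac e1
  rw [yac_cay (by rw [aff_im]; positivity), yac_cay (by rw [aff_im]; positivity)] at e2
  have hr' : (r : ℂ) ≠ 0 := ofReal_ne_zero.2 hr.ne'
  exact mul_left_cancel₀ hr' (add_left_cancel e2)

lemma T_image (hr : 0 < r) : T β x r '' {z | 0 < z.im} = ball 0 1 := by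
  ext w
  constructor
  · rintro ⟨z, hz, rfl⟩
    rw [mem_ball_zero_iff, T_norm]
    rw [mem_ofPred_eq] at hz
    exact norm_cay_lt (by rw [aff_im]; positivity)
  · intro hw
    have hr' : (r : ℂ) ≠ 0 := ofReal_ne_zero.2 hr.ne'
    set v : ℂ := exp (-(β * I)) * w with hv
    have hvn : ‖v‖ < 1 := by
      rw [hv, norm_mul, show -((β : ℂ) * I) = ((-β : ℝ) : ℂ) * I by push_cast; ring, norm_exp', one_mul]
      exact mem_ball_zero_iff.1 hw
    have hv1 : v ≠ 1 := by rintro h; rw [h] at hvn; simp at hvn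
    have h1 := yac_im_pos hvn
    refine ⟨(yac v - x) / r, ?_, ?_⟩
    · rw [mem_ofPred_eq, div_ofReal_im]
      apply div_pos _ hr
      simpa using h1
    · unfold T
      rw [mul_div_cancel₀ _ hr', add_sub_cancel, cay_yac hv1, hv, ← mul_assoc, ← exp_add,
        add_neg_cancel, exp_zero, one_mul]

lemma T_real (s : ℝ) : T β x r s = (Circle.exp (ang β (x + r * s)) : ℂ) := by
  unfold T
  rw [← rot_cay]
  push_cast
  rfl

lemma T_tendsto (hr : 0 < r) : Tendsto (T β x r) (Bornology.cobounded ℂ) (𝓝 (exp (β * I))) := by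
  unfold T
  have hr' : (r : ℂ) ≠ 0 := ofReal_ne_zero.2 hr.ne'
  have h1 : Tendsto (fun z : ℂ => (x : ℂ) + r * z) (Bornology.cobounded ℂ) (Bornology.cobounded ℂ) :=
    (tendsto_const_add_cobounded (x : ℂ)).comp (tendsto_mul_left_cobounded hr')
  have h2 := (tendsto_cay.comp h1).const_mul (exp (β * I))
  rwa [mul_one] at h2

end T

/-- **Every Jordan domain with two disjoint boundary arcs has a chart.** -/
theorem exists_chart {D A B : Set ℂ} (h : Full.IsJordan D A B) :
    ∃ (m : ℝ) (φ : ℂ → ℂ) (p : ℂ), 0 < m ∧ m < 1 ∧ IsChart D A B m φ p := by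
  obtain ⟨F, f1, f2, f3, f4, f5, f6⟩ := Full.Jordan.exists_disc h.isOpen h.bdd h.conn h.curve
  obtain ⟨a1, a2, a3, a4⟩ := Full.Jordan.pull_arc f1 f2 h.closedA h.connA h.ntA
    (by rw [f6]; exact h.subA)
  obtain ⟨b1, b2, b3, b4⟩ := Full.Jordan.pull_arc f1 f2 h.closedB h.connB h.ntB
    (by rw [f6]; exact h.subB)
  obtain ⟨s₁, β, t₁, t₂, hs, hst, ht, hts, hA, hB⟩ := Full.Jordan.exists_arcs a1 a2 a3 b1 b2 b3 (by
    rw [Set.disjoint_left]
    intro v hv hv'
    exact Set.disjoint_left.1 h.disj hv hv')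
  rw [hA] at a4
  rw [hB] at b4
  have hpi := Real.pi_pos
  have q1 : β < t₂ := hst.trans ht
  have q2 : t₂ < β + 2 * Real.pi := hts.trans (by linarith)
  have q3 : β < s₁ + 2 * Real.pi := q1.trans hts
  have q4 : s₁ + 2 * Real.pi < β + 2 * Real.pi := by linarith
  set x₁ := xt β t₁ with hx₁
  set x₂ := xt β t₂ with hx₂
  set x₃ := xt β (s₁ + 2 * Real.pi) with hx₃
  have h12 : x₁ < x₂ := xt_lt hst ht q2
  have h23 : x₂ < x₃ := xt_lt q1 hts q4
  set r := x₃ - x₁ with hr
  have hr0 : 0 < r := by rw [hr]; linarith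
  have hm : closedBall (0:ℂ) 1 = closedBall (0:ℂ) 1 := rfl
  have hp : exp (β * I) ∈ closedBall (0:ℂ) 1 := by
    rw [mem_closedBall_zero_iff, norm_exp']
  refine ⟨(x₂ - x₁) / r, F ∘ T β x₁ r, F (exp (β * I)), div_pos (by linarith) hr0,
    (div_lt_one hr0).2 (by rw [hr]; linarith), ⟨?_, ?_, ?_, ?_, ?_, ?_, ?_, ?_⟩⟩
  · refine f3.comp (T_diff hr0) ?_
    rw [← T_image hr0]
    exact mapsTo_image _ _
  · rw [image_comp, T_image hr0, f4]
  · exact f1.comp (T_cont hr0) fun z hz => T_mem hr0 hz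
  · exact f2.comp (T_inj hr0) fun z hz => T_mem hr0 hz
  · have h1 : Tendsto (T β x₁ r) (Bornology.cobounded ℂ ⊓ 𝓟 {z | 0 ≤ z.im})
        (𝓝[closedBall 0 1] (exp (β * I))) := by
      rw [tendsto_nhdsWithin_iff]
      refine ⟨(T_tendsto hr0).mono_left inf_le_left, ?_⟩
      rw [eventually_inf_principal]
      exact Eventually.of_forall fun z hz => T_mem hr0 hz
    exact (f1 _ hp).tendsto.comp h1
  · intro z hz e
    exact T_ne hr0 hz (f2 (T_mem hr0 hz) hp e)
  · rw [← a4]
    have e1 : (fun s : ℝ => ang β (x₁ + r * s)) '' Icc 0 ((x₂ - x₁) / r) = Icc t₁ t₂ := by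
      rw [← ang_image_Icc hst ht.le q2, ← hx₁, ← hx₂,
        show (fun s : ℝ => ang β (x₁ + r * s)) = ang β ∘ (fun s : ℝ => x₁ + r * s) from rfl, image_comp]
      congr 1
      ext u
      constructor
      · rintro ⟨s, ⟨hs1, hs2⟩, rfl⟩
        rw [le_div_iff₀ hr0] at hs2
        have : 0 ≤ r * s := by positivity
        constructor
        · simp only; linarith
        · simp only; linarith
      · rintro ⟨hu1, hu2⟩
        refine ⟨(u - x₁) / r, ⟨div_nonneg (by linarith) hr0.le,
          div_le_div_of_nonneg_right (by linarith) hr0.le⟩, ?_⟩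
        simp only
        rw [mul_div_cancel₀ _ hr0.ne']
        ring
    rw [← e1, image_image, image_image]
    apply image_congr
    intro s _
    simp only [Function.comp_apply]
    rw [T_real]
  · rw [← b4]
    have e1 : (fun s : ℝ => ang β (x₁ + r * s)) '' Ici 1 = Ico (s₁ + 2 * Real.pi) (β + 2 * Real.pi) := by
      rw [← ang_image_Ici q3 q4, ← hx₃,
        show (fun s : ℝ => ang β (x₁ + r * s)) = ang β ∘ (fun s : ℝ => x₁ + r * s) from rfl, image_comp]
      congr 1
      ext u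
      constructor
      · rintro ⟨s, hs1, rfl⟩
        rw [mem_Ici] at hs1 ⊢
        have : r * 1 ≤ r * s := mul_le_mul_of_nonneg_left hs1 hr0.le
        rw [hr] at this ⊢
        linarith
      · intro hu1
        rw [mem_Ici] at hu1
        refine ⟨(u - x₁) / r, ?_, ?_⟩
        · rw [mem_Ici, le_div_iff₀ hr0, hr]
          linarith
        · simp only
          rw [mul_div_cancel₀ _ hr0.ne']
          ring
    have e2 : Circle.exp '' Icc s₁ β = insert (Circle.exp β)
        (Circle.exp '' Ico (s₁ + 2 * Real.pi) (β + 2 * Real.pi)) := by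
      rw [← Ico_insert_right hs.le, image_insert_eq]
      congr 1
      ext v
      constructor
      · rintro ⟨t, ht, rfl⟩
        refine ⟨t + 2 * Real.pi, ⟨by linarith [ht.1], by linarith [ht.2]⟩, ?_⟩
        exact Circle.exp_add_two_pi t
      · rintro ⟨t, ht, rfl⟩
        refine ⟨t - 2 * Real.pi, ⟨by linarith [ht.1], by linarith [ht.2]⟩, ?_⟩
        rw [← Circle.exp_add_two_pi (t - 2 * Real.pi), sub_add_cancel]
    rw [e2, image_insert_eq, ← e1, image_image, image_image, Circle.coe_exp]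
    congr 1
    apply image_congr
    intro s _
    simp only [Function.comp_apply]
    rw [T_real]

end Pool.Agent.Cardy
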