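import Pool.Agent.Cardy.RectChart
import Pool.Agent.Full.Rough.Graph
import Pool.Agent.Full.Jordan.Main
import Pool.Agent.Helper47.Perc.Aspect

/-!
# The limit for the rectangles with sides in the diagonal directions

If the crossing probabilities of the open rectangle `Dd ρ` have a limit as the mesh tends to zero, then
it is the limit of the crossing probabilities of the lattice rectangles with aspect ratio tending to `ρ`.
-/

set_option autoImplicit false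

open Set Filter Topology Metric Complex H47Perc Full

namespace Pool.Agent.Cardy

/-- the closed rectangle -/
def Kd (ρ : ℝ) : Set ℂ :=
  {z | 0 ≤ z.re + z.im ∧ z.re + z.im ≤ 1 ∧ -ρ ≤ z.re - z.im ∧ z.re - z.im ≤ 0}

lemma one_sub_I_ne : (1 : ℂ) - I ≠ 0 := by
  intro e
  have := congrArg Complex.re e
  simp at this

lemma closure_Dd {ρ : ℝ} (hρ : 0 < ρ) : closure (Dd ρ) = Kd ρ := by
  have e1 : Dd ρ = (Homeomorph.mulLeft₀ (1 - I : ℂ) one_sub_I_ne) ⁻¹' (Ioo 0 1 ×ℂ Ioo 0 ρ) := by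
    ext w
    simp only [Dd, mem_ofPred_eq, mem_preimage, Homeomorph.coe_mulLeft₀, mem_reProdIm, mem_Ioo,
      one_sub_I_re, one_sub_I_im]
    constructor
    · rintro ⟨a, b, c, d⟩; exact ⟨⟨a, b⟩, by linarith, by linarith⟩
    · rintro ⟨⟨a, b⟩, c, d⟩; exact ⟨a, b, by linarith, by linarith⟩
  rw [e1, ← Homeomorph.preimage_closure, closure_reProdIm, closure_Ioo zero_ne_one,
    closure_Ioo hρ.ne]
  ext w
  simp only [Kd, mem_ofPred_eq, mem_preimage, Homeomorph.coe_mulLeft₀, mem_reProdIm, mem_Icc,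
    one_sub_I_re, one_sub_I_im]
  constructor
  · rintro ⟨⟨a, b⟩, c, d⟩; exact ⟨a, b, by linarith, by linarith⟩
  · rintro ⟨a, b, c, d⟩; exact ⟨⟨a, b⟩, by linarith, by linarith⟩

/-- a point of an edge at an integer height is an end -/
lemma on_edge {ε : ℝ} (hε : 0 < ε) {y y' : ℤ × ℤ} (hadj : lattice.Adj y y') {a : ℂ}
    (ha : a ∈ segment ℝ (pos ε y) (pos ε y')) {c : ℤ} (hc : a.re - a.im = ε * c) :
    ∃ v, (v = y ∨ v = y') ∧ a = pos ε v ∧ v.1 - v.2 = c := by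
  rw [segment_eq_image] at ha
  obtain ⟨t, ⟨ht0, ht1⟩, rfl⟩ := ha
  have hs : (y'.1 - y'.2) - (y.1 - y.2) = 1 ∨ (y'.1 - y'.2) - (y.1 - y.2) = -1 := by
    rcases hadj with ⟨h1, h2⟩ | ⟨h1, h2⟩
    · rcases (abs_eq one_pos.le).1 h2 with h | h <;> [left; right] <;> omega
    · rcases (abs_eq one_pos.le).1 h2 with h | h <;> [right; left] <;> omega
  have h3 : ((1 - t) * ((y.1 : ℝ) - y.2) + t * ((y'.1 : ℝ) - y'.2)) = c := by
    simp only [add_re, add_im, real_smul, re_ofReal_mul, im_ofReal_mul, pos_re, pos_im] at hc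
    have : ε * ((1 - t) * ((y.1 : ℝ) - y.2) + t * ((y'.1 : ℝ) - y'.2)) = ε * c := by linarith
    exact mul_left_cancel₀ hε.ne' this
  have h4 : ((y'.1 : ℝ) - y'.2) - ((y.1 : ℝ) - y.2) = 1 ∨ ((y'.1 : ℝ) - y'.2) - ((y.1 : ℝ) - y.2) = -1 := by
    rcases hs with h | h <;> [left; right] <;> exact_mod_cast h
  rcases ht0.lt_or_eq with ht0 | ht0
  · rcases ht1.lt_or_eq with ht1 | ht1
    · exfalso
      -- strictly between two consecutive integers
      rcases h4 with h | h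
      · have a1 : ((y.1 - y.2 : ℤ) : ℝ) < c := by push_cast; nlinarith
        have a2 : (c : ℝ) < ((y.1 - y.2 + 1 : ℤ) : ℝ) := by push_cast; nlinarith
        have a1' : y.1 - y.2 < c := by exact_mod_cast a1
        have a2' : c < y.1 - y.2 + 1 := by exact_mod_cast a2
        omega
      · have a1 : ((y.1 - y.2 - 1 : ℤ) : ℝ) < c := by push_cast; nlinarith
        have a2 : (c : ℝ) < ((y.1 - y.2 : ℤ) : ℝ) := by push_cast; nlinarith
        have a1' : y.1 - y.2 - 1 < c := by exact_mod_cast a1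
        have a2' : c < y.1 - y.2 := by exact_mod_cast a2
        omega
    · subst ht1
      refine ⟨y', Or.inr rfl, by simp, ?_⟩
      have : ((y'.1 - y'.2 : ℤ) : ℝ) = c := by push_cast; linarith
      exact_mod_cast this
  · subst ht0
    refine ⟨y, Or.inl rfl, by simp, ?_⟩
    have : ((y.1 - y.2 : ℤ) : ℝ) = c := by push_cast; linarith
    exact_mod_cast this

/-- vertices in the closed rectangle -/
lemma pos_mem_Kd {n : ℕ} (hn : 0 < n) {ρ : ℝ} {z : ℤ × ℤ} (h : pos (1 / n) z ∈ Kd ρ) :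
    0 ≤ z.1 + z.2 ∧ z.1 + z.2 ≤ n ∧ z.1 - z.2 ≤ 0 := by
  obtain ⟨h1, h2, -, h4⟩ := h
  simp only [pos_re, pos_im] at h1 h2 h4
  have hn' : (0:ℝ) < n := by exact_mod_cast hn
  have e1 : 0 ≤ ((z.1 + z.2 : ℤ) : ℝ) := by
    have : (1 / (n:ℝ)) * z.1 + 1 / n * z.2 = ((z.1 + z.2 : ℤ) : ℝ) / n := by push_cast; ring
    rw [this] at h1
    rwa [le_div_iff₀ hn', zero_mul] at h1
  have e2 : ((z.1 + z.2 : ℤ) : ℝ) ≤ n := by
    have : (1 / (n:ℝ)) * z.1 + 1 / n * z.2 = ((z.1 + z.2 : ℤ) : ℝ) / n := by push_cast; ring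
    rw [this] at h2
    rwa [div_le_iff₀ hn', one_mul] at h2
  have e3 : ((z.1 - z.2 : ℤ) : ℝ) ≤ 0 := by
    have : (1 / (n:ℝ)) * z.1 - 1 / n * z.2 = ((z.1 - z.2 : ℤ) : ℝ) / n := by push_cast; ring
    rw [this] at h4
    rwa [div_le_iff₀ hn', zero_mul] at h4
  exact ⟨by exact_mod_cast e1, by exact_mod_cast e2, by exact_mod_cast e3⟩

/-- a crossing of the rectangle contains a crossing of the lattice rectangle of smaller height -/
theorem upper {n : ℕ} (hn : 0 < n) {ρ : ℝ} (hρ : 0 < ρ) {k : ℤ} (hk0 : 0 ≤ k) (hk : (k : ℝ) ≤ ρ * n)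
    {S : Finset (ℤ × ℤ)} {ω : Finset (Sym2 (ℤ × ℤ))} (hω : ω ⊆ edgesIn S)
    (h : CrossedJ (1 / n) (Dd ρ) Ad (Bd ρ) ω) :
    RC.Cr (-k) 0 (ω ∩ edgesIn (RC.drect 0 n (-k) 0)) := by
  classical
  have hn' : (0:ℝ) < n := by exact_mod_cast hn
  have hε : (0:ℝ) < 1 / n := by positivity
  obtain ⟨a, ha, b, hb, hJ⟩ := h
  rw [closure_Dd hρ] at hJ
  obtain ⟨γ, hγ⟩ := hJ
  set R := RC.drect 0 n (-k) 0 with hR
  by_contra hno
  set V : Set (ℤ × ℤ) := {z | z ∈ R ∧ ∃ z', z'.1 - z'.2 = 0 ∧ Joined (ω ∩ edgesIn R) z z'} with hV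
  have hV1 : ∀ z ∈ V, -k < z.1 - z.2 := by
    rintro z ⟨hz, z', h1, h2⟩
    rw [hR, RC.mem_drect] at hz
    by_contra hlt
    exact hno ⟨z, z', by omega, h1, h2⟩
  have hV2 : ∀ z ∈ V, ∀ y, s(z, y) ∈ ω → y ∈ R → y ∈ V := by
    rintro z ⟨hz, z', h1, h2⟩ y hzy hy
    have hadj := (mem_edgesIn.1 (hω hzy)).2.2
    refine ⟨hy, z', h1, joined_trans ?_ h2⟩
    apply SimpleGraph.Adj.reachable
    rw [SimpleGraph.fromEdgeSet_adj]
    refine ⟨?_, hadj.ne'⟩
    rw [Finset.mem_coe, Finset.mem_inter, Sym2.eq_swap]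
    exact ⟨hzy, mem_edgesIn.2 ⟨hz, hy, hadj⟩⟩
  have hstep : ∀ z y : ℤ × ℤ, lattice.Adj z y → -1 ≤ (y.1 - y.2) - (z.1 - z.2) := by
    rintro z y (⟨h1, h2⟩ | ⟨h1, h2⟩) <;> rcases (abs_eq one_pos.le).1 h2 with h | h <;> omega
  have hreg : ∀ z ∈ V, ∀ y, s(z, y) ∈ ω → pos (1 / n) y ∈ Kd ρ → y ∈ V := by
    intro z hz y hzy hy
    refine hV2 z hz y hzy ?_
    have h1 := pos_mem_Kd hn hy
    have h2 := hV1 z hz
    have h3 := hstep z y (mem_edgesIn.1 (hω hzy)).2.2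
    rw [hR, RC.mem_drect]
    omega
  set U : Set ℂ := ⋃ e ∈ ω.filter (fun e => ∃ z ∈ e, z ∈ V), seg (1 / n) e with hU
  set U' : Set ℂ := ⋃ e ∈ ω.filter (fun e => ¬ ∃ z ∈ e, z ∈ V), seg (1 / n) e with hU'
  have hUc : IsClosed U := (Finset.isCompact_biUnion _ fun e _ => isCompact_seg _ e).isClosed
  have hUc' : IsClosed U' := (Finset.isCompact_biUnion _ fun e _ => isCompact_seg _ e).isClosed
  have hK : IsPreconnected (range γ) := isPreconnected_range γ.continuous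
  have hcov : range γ ⊆ U ∪ U' := by
    rintro _ ⟨t, rfl⟩
    obtain ⟨e, he, h2⟩ := mem_openSet.1 (hγ t).1
    by_cases h3 : ∃ z ∈ e, z ∈ V
    · left
      rw [hU]
      exact mem_biUnion (Finset.mem_filter.2 ⟨he, h3⟩) h2
    · right
      rw [hU']
      exact mem_biUnion (Finset.mem_filter.2 ⟨he, h3⟩) h2
  have hdis : range γ ∩ (U ∩ U') = ∅ := by
    rw [eq_empty_iff_forall_notMem]
    rintro _ ⟨⟨t, rfl⟩, h1, h2⟩
    rw [hU, mem_iUnion₂] at h1
    rw [hU', mem_iUnion₂] at h2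
    obtain ⟨e, he, h1⟩ := h1
    obtain ⟨e', he', h2⟩ := h2
    rw [Finset.mem_filter] at he he'
    obtain ⟨he, z, hze, hzV⟩ := he
    obtain ⟨he', hno'⟩ := he'
    have hne : e ≠ e' := by
      rintro rfl
      exact hno' ⟨z, hze, hzV⟩
    obtain ⟨y, hye, hye', hy⟩ := seg_inter hε (edgesIn_cases (hω he)) (edgesIn_cases (hω he')) hne h1 h2
    apply hno'
    refine ⟨y, hye', ?_⟩
    by_cases hzy : y = z
    · rw [hzy]; exact hzV
    · have he2 : e = s(z, y) := by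
        induction e using Sym2.ind with
        | _ u v =>
          rw [Sym2.mem_iff] at hze hye
          rw [Sym2.eq_iff]
          grind
      refine hreg z hzV y (he2 ▸ he) ?_
      rw [← hy]
      exact (hγ t).2
  have haK : a ∈ range γ := ⟨0, γ.source⟩
  have hbK : b ∈ range γ := ⟨1, γ.target⟩
  have haU : a ∈ U := by
    have h0 := hγ 0
    rw [γ.source] at h0
    obtain ⟨e, he, h2⟩ := mem_openSet.1 h0.1
    rw [hU]
    refine mem_biUnion (Finset.mem_filter.2 ⟨he, ?_⟩) h2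
    induction e using Sym2.ind with
    | _ y y' =>
      rw [seg_mk] at h2
      obtain ⟨v, hv, hav, hv0⟩ := on_edge hε (mem_edgesIn.1 (hω he)).2.2 h2 (c := 0) (by
        rw [ha.2.2]; simp)
      refine ⟨v, by rw [Sym2.mem_iff]; exact hv, ?_, v, hv0, SimpleGraph.Reachable.refl _⟩
      rw [hR, RC.mem_drect]
      have := pos_mem_Kd hn (hav ▸ h0.2)
      omega
  have hsub : range γ ⊆ U := by
    rcases (isPreconnected_iff_subset_of_disjoint_closed.1 hK) U U' hUc hUc' hcov hdis with h | h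
    · exact h
    · exfalso
      have : a ∈ range γ ∩ (U ∩ U') := ⟨haK, haU, h haK⟩
      rw [hdis] at this
      exact this
  have hbU := hsub hbK
  rw [hU, mem_iUnion₂] at hbU
  obtain ⟨e, he, h1⟩ := hbU
  rw [Finset.mem_filter] at he
  obtain ⟨he, z, hze, hzV⟩ := he
  obtain ⟨y, rfl⟩ : ∃ y, e = s(z, y) := Sym2.mem_iff_exists.1 hze
  rw [seg_mk, segment_eq_image] at h1
  obtain ⟨t, ⟨ht0, ht1⟩, hb2⟩ := h1
  have hadj := (mem_edgesIn.1 (hω he)).2.2
  have hbw : (1 - t) * ((z.1 : ℝ) - z.2) + t * ((y.1 : ℝ) - y.2) ≤ -k := by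
    have h3 := hb.2.2
    rw [← hb2] at h3
    simp only [add_re, add_im, real_smul, re_ofReal_mul, im_ofReal_mul, pos_re, pos_im] at h3
    have h4 : (1 - t) * ((z.1 : ℝ) - z.2) + t * ((y.1 : ℝ) - y.2) = -(ρ * n) := by
      field_simp at h3
      linarith
    linarith
  have hz1 : ((-k + 1 : ℤ) : ℝ) ≤ ((z.1 - z.2 : ℤ) : ℝ) := by
    have := hV1 z hzV
    exact_mod_cast (by omega : -k + 1 ≤ z.1 - z.2)
  have hy1 : (-1 : ℝ) ≤ ((y.1 : ℝ) - y.2) - ((z.1 : ℝ) - z.2) := by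
    exact_mod_cast hstep z y hadj
  push_cast at hz1
  have ht : t = 1 := by
    refine le_antisymm ht1 ?_
    nlinarith
  subst ht
  have hby : b = pos (1 / n) y := by
    rw [← hb2]
    simp
  have hyV : y ∈ V := by
    refine hreg z hzV y he ?_
    have h0 := hγ 1
    rw [γ.target] at h0
    rw [← hby]
    exact h0.2
  have hy2 := hV1 y hyV
  have hy3 : ((y.1 - y.2 : ℤ) : ℝ) ≤ ((-k : ℤ) : ℝ) := by
    push_cast
    linarith
  have hy4 : y.1 - y.2 ≤ -k := by exact_mod_cast hy3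
  omega

/-- a walk of open edges is a path in the open set -/
lemma joinedIn_of_walk {ε : ℝ} {ω : Finset (Sym2 (ℤ × ℤ))} {u v : ℤ × ℤ}
    (p : (SimpleGraph.fromEdgeSet (ω : Set (Sym2 (ℤ × ℤ)))).Walk u v) :
    u = v ∨ JoinedIn (openSet ε ω) (pos ε u) (pos ε v) := by
  induction p with
  | nil => left; rfl
  | cons h q ih =>
    rename_i u w v
    right
    have h1 : JoinedIn (openSet ε ω) (pos ε u) (pos ε w) := by
      apply joinedIn_segment
      intro x hx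
      rw [SimpleGraph.fromEdgeSet_adj] at h
      exact ⟨u, w, by simpa using h.1, hx⟩
    rcases ih with rfl | ih
    · exact h1
    · exact h1.trans ih

/-- a crossing of the lattice rectangle of larger height contains a crossing of the rectangle -/
theorem lower {n : ℕ} (hn : 0 < n) {ρ : ℝ} (hρ : 0 < ρ) {k : ℤ} (hk : ρ * n ≤ k)
    {ω : Finset (Sym2 (ℤ × ℤ))} (h : RC.Cr (-k) 0 (ω ∩ edgesIn (RC.drect 0 n (-k) 0))) :
    CrossedJ (1 / n) (Dd ρ) Ad (Bd ρ) ω := by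
  classical
  have hn' : (0:ℝ) < n := by exact_mod_cast hn
  have hε : (0:ℝ) < 1 / n := by positivity
  obtain ⟨z, z', hz, hz', ⟨p⟩⟩ := h
  set ω' := ω ∩ edgesIn (RC.drect 0 n (-k) 0) with hω'
  have hk0 : 0 < k := by
    have : (0:ℝ) < k := lt_of_lt_of_le (by positivity) hk
    exact_mod_cast this
  rcases joinedIn_of_walk (ε := 1 / n) p with rfl | hJ
  · omega
  obtain ⟨γ, hγ⟩ := hJ
  have hstrip : ∀ w ∈ openSet (1 / (n:ℝ)) ω', 0 ≤ w.re + w.im ∧ w.re + w.im ≤ 1 := by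
    rintro w ⟨u, v, huv, hw⟩
    rw [hω', Finset.mem_inter] at huv
    obtain ⟨hu, hv, -⟩ := mem_edgesIn.1 huv.2
    rw [RC.mem_drect] at hu hv
    rw [segment_eq_image] at hw
    obtain ⟨t, ⟨ht0, ht1⟩, rfl⟩ := hw
    have c1 : (0:ℝ) ≤ (u.1 : ℝ) + u.2 := by exact_mod_cast hu.1
    have c2 : (u.1 : ℝ) + u.2 ≤ n := by exact_mod_cast hu.2.1
    have c3 : (0:ℝ) ≤ (v.1 : ℝ) + v.2 := by exact_mod_cast hv.1
    have c4 : (v.1 : ℝ) + v.2 ≤ n := by exact_mod_cast hv.2.1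
    simp only [add_re, add_im, real_smul, re_ofReal_mul, im_ofReal_mul, pos_re, pos_im]
    have e : (1 - t) * (1 / (n:ℝ) * u.1) + t * (1 / n * v.1) + ((1 - t) * (1 / n * u.2) + t * (1 / n * v.2))
        = ((1 - t) * ((u.1 : ℝ) + u.2) + t * ((v.1 : ℝ) + v.2)) / n := by ring
    rw [e]
    constructor
    · apply div_nonneg _ hn'.le
      have : 0 ≤ 1 - t := by linarith
      positivity
    · rw [div_le_iff₀ hn', one_mul]
      nlinarith
  have hsub : openSet (1 / (n:ℝ)) ω' ⊆ openSet (1 / n) ω := openSet_mono Finset.inter_subset_left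
  have hγe : ∀ s : ℝ, γ.extend s ∈ openSet (1 / (n:ℝ)) ω' := by
    intro s
    have : γ.extend s ∈ range γ := by
      rw [← γ.extend_range]
      exact mem_range_self s
    obtain ⟨t, ht⟩ := this
    rw [← ht]
    exact hγ t
  set h : ℝ → ℝ := fun s => (γ.extend s).re - (γ.extend s).im with hh
  have hhc : Continuous h := by
    rw [hh]
    exact (continuous_re.comp γ.continuous_extend).sub (continuous_im.comp γ.continuous_extend)
  have e0 : h 0 ≤ -ρ := by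
    have c1 : ((z.1 : ℝ) - z.2) = -k := by exact_mod_cast hz
    simp only [hh, γ.extend_zero, pos_re, pos_im]
    have e : 1 / (n:ℝ) * z.1 - 1 / n * z.2 = ((z.1 : ℝ) - z.2) / n := by ring
    rw [e, c1, div_le_iff₀ hn']
    linarith
  have e1 : 0 ≤ h 1 := by
    have c1 : ((z'.1 : ℝ) - z'.2) = 0 := by exact_mod_cast hz'
    simp only [hh, γ.extend_one, pos_re, pos_im]
    have e : 1 / (n:ℝ) * z'.1 - 1 / n * z'.2 = ((z'.1 : ℝ) - z'.2) / n := by ring
    rw [e, c1, zero_div]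
  obtain ⟨t₁, t₂, ht1, ht12, ht2, h1, h2, h3⟩ := passage hhc zero_le_one
    (by linarith : -ρ ≤ 0) e0 e1
  have hpath : IsPathConnected (γ.extend '' Icc t₁ t₂) :=
    ((convex_Icc t₁ t₂).isPathConnected ⟨t₁, le_rfl, ht12⟩).image γ.continuous_extend
  have hJ : JoinedIn (openSet (1 / (n:ℝ)) ω ∩ closure (Dd ρ)) (γ.extend t₂) (γ.extend t₁) := by
    refine (hpath.joinedIn _ ⟨t₂, ⟨ht12, le_rfl⟩, rfl⟩ _ ⟨t₁, ⟨le_rfl, ht12⟩, rfl⟩).mono ?_
    rintro _ ⟨x, hx, rfl⟩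
    rw [closure_Dd hρ]
    have := hstrip _ (hγe x)
    exact ⟨hsub (hγe x), this.1, this.2, (h3 x hx).1, (h3 x hx).2⟩
  refine ⟨γ.extend t₂, ?_, γ.extend t₁, ?_, hJ⟩
  · have := hstrip _ (hγe t₂)
    exact ⟨this.1, this.2, h2⟩
  · have := hstrip _ (hγe t₁)
    exact ⟨this.1, this.2, h1⟩

/-- a finite set of vertices which contains all the vertices close to a bounded set -/
theorem exists_cover {A : Set ℂ} (hA : Bornology.IsBounded A) (hne : A.Nonempty) {ε : ℝ}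
    (hε : 0 < ε) :
    ∃ N : ℕ, ∀ z : ℤ × ℤ, Metric.infDist (pos ε z) A ≤ ε →
      z ∈ Finset.Icc (-(N:ℤ), -(N:ℤ)) ((N:ℤ), (N:ℤ)) := by
  obtain ⟨M, hM⟩ := hA.exists_norm_le
  obtain ⟨N, hN⟩ := exists_nat_gt ((M + 2 * ε) / ε)
  refine ⟨N, fun z hz => ?_⟩
  have h7 : M + 2 * ε < ε * N := by rw [div_lt_iff₀ hε] at hN; linarith
  have h8 : Metric.infDist (pos ε z) A < 2 * ε := by linarith
  obtain ⟨w, hw, hwd⟩ := (Metric.infDist_lt_iff hne).1 h8
  rw [Complex.dist_eq] at hwd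
  have h5 : ‖pos ε z‖ ≤ M + 2 * ε := by
    have h6 := norm_add_le (pos ε z - w) w
    rw [sub_add_cancel] at h6
    linarith [hM w hw]
  have g1 := (Complex.abs_re_le_norm (pos ε z)).trans h5
  have g2 := (Complex.abs_im_le_norm (pos ε z)).trans h5
  rw [pos_re, abs_le] at g1
  rw [pos_im, abs_le] at g2
  have hlt : ∀ a b : ℤ, ε * a < ε * b → a ≤ b := fun a b h =>
    (Int.cast_lt (R := ℝ).1 (lt_of_mul_lt_mul_left h hε.le)).le
  have k1 : z.1 ≤ N := hlt _ _ (by push_cast; linarith)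
  have k2 : -(N:ℤ) ≤ z.1 := hlt _ _ (by push_cast; linarith)
  have k3 : z.2 ≤ N := hlt _ _ (by push_cast; linarith)
  have k4 : -(N:ℤ) ≤ z.2 := hlt _ _ (by push_cast; linarith)
  rw [Finset.mem_Icc, Prod.le_def, Prod.le_def]
  exact ⟨⟨k2, k4⟩, k1, k3⟩

lemma tendsto_div_of_close {ρ : ℝ} {k : ℕ → ℤ} (h : ∀ n : ℕ, |(k n : ℝ) - ρ * n| ≤ 1) :
    Tendsto (fun n => (k n : ℝ) / n) atTop (𝓝 ρ) := by
  rw [tendsto_iff_dist_tendsto_zero]
  refine squeeze_zero' (Eventually.of_forall fun n => dist_nonneg) ?_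
    (tendsto_one_div_atTop_nhds_zero_nat (𝕜 := ℝ))
  filter_upwards [eventually_gt_atTop 0] with n hn
  have hn' : (0:ℝ) < n := by exact_mod_cast hn
  rw [Real.dist_eq, show (k n : ℝ) / n - ρ = ((k n : ℝ) - ρ * n) / n by field_simp, abs_div,
    abs_of_pos hn']
  exact div_le_div_of_nonneg_right (h n) hn'.le

/-- **identification of the limit for the rectangles with sides in the diagonal directions** -/
theorem rect_id {ρ L v : ℝ} (hρ : 0 < ρ)
    (hC : ∀ k : ℕ → ℤ, Tendsto (fun n => (k n : ℝ) / n) atTop (𝓝 ρ) →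
      Tendsto (fun n : ℕ => RC.pC 0 n (-(k n)) 0) atTop (𝓝 v))
    (hT : TendsJ (Dd ρ) Ad (Bd ρ) L) : L = v := by
  classical
  have hbd : Bornology.IsBounded (closure (Dd ρ)) := by
    rw [closure_Dd hρ, isBounded_iff_forall_norm_le]
    refine ⟨1 + 1 * ρ + (1 + 1 * ρ), fun z hz => ?_⟩
    obtain ⟨h1, h2, h3, h4⟩ := hz
    refine (Complex.norm_le_abs_re_add_abs_im z).trans (add_le_add ?_ ?_) <;>
    · rw [abs_le]
      constructor <;> linarith
  have hne : (closure (Dd ρ)).Nonempty := by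
    rw [closure_Dd hρ]
    exact ⟨0, by simp [Kd, hρ.le]⟩
  have l1 := hC (fun n => ⌊ρ * n⌋) (tendsto_div_of_close fun n => by
    rw [abs_le]
    constructor <;> linarith [Int.floor_le (ρ * n), Int.lt_floor_add_one (ρ * n)])
  have l2 := hC (fun n => ⌈ρ * n⌉) (tendsto_div_of_close fun n => by
    rw [abs_le]
    constructor <;> linarith [Int.le_ceil (ρ * n), Int.ceil_lt_add_one (ρ * n)])
  have key : ∀ δ : ℝ, 0 < δ → ∀ᶠ n : ℕ in atTop,
      RC.pC 0 n (-⌈ρ * n⌉) 0 ≤ L + δ ∧ L - δ ≤ RC.pC 0 n (-⌊ρ * n⌋) 0 := by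
    intro δ hδ
    obtain ⟨ε₀, hε₀, h⟩ := hT δ hδ
    have h0 : ∀ᶠ n : ℕ in atTop, (1:ℝ) / n < ε₀ :=
      (tendsto_one_div_atTop_nhds_zero_nat (𝕜 := ℝ)).eventually_lt_const hε₀
    filter_upwards [eventually_gt_atTop 0, h0] with n hn hnε
    have hn' : (0:ℝ) < n := by exact_mod_cast hn
    have hε : (0:ℝ) < 1 / n := by positivity
    obtain ⟨N, hN⟩ := exists_cover hbd hne hε
    set S : Finset (ℤ × ℤ) := Finset.Icc (-(N:ℤ), -(N:ℤ)) ((N:ℤ), (N:ℤ)) ∪
      (RC.drect 0 n (-⌊ρ * n⌋) 0 ∪ RC.drect 0 n (-⌈ρ * n⌉) 0) with hS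
    have h1 := h (1 / n) hε hnε S fun z hz => Finset.mem_union_left _ (hN z hz)
    rw [abs_lt] at h1
    have s1 : RC.drect 0 n (-⌊ρ * n⌋) 0 ⊆ S :=
      Finset.subset_union_left.trans Finset.subset_union_right
    have s2 : RC.drect 0 n (-⌈ρ * n⌉) 0 ⊆ S :=
      Finset.subset_union_right.trans Finset.subset_union_right
    have p1 : perc half S (CrossedJ (1 / n) (Dd ρ) Ad (Bd ρ)) ≤ RC.pC 0 n (-⌊ρ * n⌋) 0 := by
      rw [RC.pC, ← perc_restrict s1]
      exact perc_half_mono fun ω hω hc => upper hn hρ (Int.floor_nonneg.2 (by positivity))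
        (Int.floor_le _) hω hc
    have p2 : RC.pC 0 n (-⌈ρ * n⌉) 0 ≤ perc half S (CrossedJ (1 / n) (Dd ρ) Ad (Bd ρ)) := by
      rw [RC.pC, ← perc_restrict s2]
      exact perc_half_mono fun ω hω hc => lower hn hρ (Int.le_ceil _) hc
    constructor <;> linarith [h1.1, h1.2]
  apply le_antisymm
  · refine le_of_forall_pos_le_add fun δ hδ => ?_
    have := ge_of_tendsto l1 ((key δ hδ).mono fun n hn => hn.2)
    linarith
  · refine le_of_forall_pos_le_add fun δ hδ => ?_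
    exact le_of_tendsto l2 ((key δ hδ).mono fun n hn => hn.1)

end Pool.Agent.Cardy
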