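import Pool.Agent.Cardy.Chart
import Pool.Agent.Full.Jordan.Normal

/-!
# Conformal maps between domains with charts with the same parameter
-/

set_option autoImplicit false

open Set Filter Topology Metric Complex

namespace Pool.Agent.Cardy

/-- the chart, transported to the closed disc -/
noncomputable def dm (φ : ℂ → ℂ) (p : ℂ) (w : ℂ) : ℂ :=
  open Classical in if w = 1 then p else φ (yac w)

section

variable {D A B : Set ℂ} {m : ℝ} {φ : ℂ → ℂ} {p : ℂ}

lemma dm_one : dm φ p 1 = p := if_pos rfl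

lemma dm_ne {w : ℂ} (h : w ≠ 1) : dm φ p w = φ (yac w) := if_neg h

lemma dm_cay {z : ℂ} (h : 0 ≤ z.im) : dm φ p (cay z) = φ z := by
  rw [dm_ne (cay_ne_one h), yac_cay h]

lemma mem_cb {w : ℂ} (h : w ∈ closedBall (0:ℂ) 1) : 0 ≤ (yac w).im :=
  yac_im_nonneg (mem_closedBall_zero_iff.1 h)

lemma IsChart.dm_cont (h : IsChart D A B m φ p) : ContinuousOn (dm φ p) (closedBall 0 1) := by
  intro w hw
  rcases eq_or_ne w 1 with rfl | hw1
  · have h1 : Tendsto (dm φ p) (𝓝[closedBall 0 1 \ {1}] 1) (𝓝 p) := by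
      have h2 : Tendsto yac (𝓝[closedBall 0 1 \ {1}] 1)
          (Bornology.cobounded ℂ ⊓ 𝓟 {z | 0 ≤ z.im}) := by
        rw [tendsto_inf]
        refine ⟨tendsto_yac.mono_left (nhdsWithin_mono _ fun x hx => hx.2), ?_⟩
        rw [tendsto_principal]
        filter_upwards [self_mem_nhdsWithin] with x hx
        exact mem_cb hx.1
      refine (h.infinity.comp h2).congr' ?_
      filter_upwards [self_mem_nhdsWithin] with x hx
      rw [Function.comp_apply, dm_ne hx.2]
    have h3 : ContinuousWithinAt (dm φ p) (closedBall 0 1 \ {1}) 1 := by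
      rw [ContinuousWithinAt, dm_one]
      exact h1
    exact continuousWithinAt_sdiff_self.1 h3
  · have h1 : ContinuousWithinAt (fun x => φ (yac x)) (closedBall 0 1) w :=
      (h.continuous _ (mem_cb hw)).comp ((continuousOn_yac w hw1).mono_of_mem_nhdsWithin
        (mem_nhdsWithin_of_mem_nhds (isOpen_ne.mem_nhds hw1))) fun x hx => mem_cb hx
    refine h1.congr_of_eventuallyEq ?_ (dm_ne hw1)
    filter_upwards [mem_nhdsWithin_of_mem_nhds (isOpen_ne.mem_nhds hw1)] with x hx
    exact dm_ne hx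

lemma IsChart.dm_inj (h : IsChart D A B m φ p) : InjOn (dm φ p) (closedBall 0 1) := by
  intro w hw v hv e
  rcases eq_or_ne w 1 with rfl | hw1 <;> rcases eq_or_ne v 1 with rfl | hv1
  · rfl
  · rw [dm_one, dm_ne hv1] at e
    exact absurd e.symm (h.ne_infinity _ (mem_cb hv))
  · rw [dm_one, dm_ne hw1] at e
    exact absurd e (h.ne_infinity _ (mem_cb hw))
  · rw [dm_ne hv1, dm_ne hw1] at e
    have e1 := congrArg cay (h.injective (mem_cb hw) (mem_cb hv) e)
    rwa [cay_yac hw1, cay_yac hv1] at e1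

lemma ne_one_of_mem {w : ℂ} (h : w ∈ ball (0:ℂ) 1) : w ≠ 1 := by
  rintro rfl
  simp at h

lemma IsChart.dm_diff (h : IsChart D A B m φ p) : DifferentiableOn ℂ (dm φ p) (ball 0 1) := by
  have h1 : DifferentiableOn ℂ (fun w => φ (yac w)) (ball 0 1) :=
    h.holomorphic.comp differentiableOn_yac fun w hw => yac_im_pos (mem_ball_zero_iff.1 hw)
  exact h1.congr fun w hw => dm_ne (ne_one_of_mem hw)

lemma IsChart.dm_image (h : IsChart D A B m φ p) : dm φ p '' ball 0 1 = D := by
  rw [← cay_image_H, image_image, ← h.image_eq]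
  exact image_congr fun z hz => dm_cay (le_of_lt hz)

lemma IsChart.dm_closed (h : IsChart D A B m φ p) : dm φ p '' closedBall 0 1 = closure D := by
  have hcl : closure (ball (0:ℂ) 1) = closedBall 0 1 := closure_ball (0:ℂ) one_ne_zero
  apply subset_antisymm
  · rw [← h.dm_image, ← hcl]
    exact ContinuousOn.image_closure (by rw [hcl]; exact h.dm_cont)
  · refine closure_minimal ?_ ((isCompact_closedBall (0:ℂ) 1).image_of_continuousOn h.dm_cont).isClosed
    rw [← h.dm_image]
    exact image_mono ball_subset_closedBall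

lemma IsChart.dm_A (h : IsChart D A B m φ p) : dm φ p '' ((fun x : ℝ => cay x) '' Icc 0 m) = A := by
  rw [image_image, ← h.image_A]
  exact image_congr fun x _ => dm_cay (by simp)

lemma IsChart.dm_B (h : IsChart D A B m φ p) :
    dm φ p '' (insert 1 ((fun x : ℝ => cay x) '' Ici 1)) = B := by
  rw [image_insert_eq, image_image, ← h.image_B, dm_one]
  congr 1
  exact image_congr fun x _ => dm_cay (by simp)

end

/-- the inverse of a continuous injective map of a compact set -/
lemma continuousOn_inv {K : Set ℂ} (hK : IsCompact K) {F g : ℂ → ℂ} (hF : ContinuousOn F K)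
    (hg : ∀ z ∈ K, g (F z) = z) : ContinuousOn g (F '' K) := by
  rw [continuousOn_iff_isClosed]
  intro t ht
  refine ⟨F '' (K ∩ t), ((hK.inter_right ht).image_of_continuousOn
    (hF.mono inter_subset_left)).isClosed, ?_⟩
  ext w
  constructor
  · rintro ⟨h1, z, hz, rfl⟩
    rw [mem_preimage, hg z hz] at h1
    exact ⟨⟨z, ⟨hz, h1⟩, rfl⟩, z, hz, rfl⟩
  · rintro ⟨⟨z, ⟨hz, hzt⟩, rfl⟩, -⟩
    refine ⟨?_, z, hz, rfl⟩
    rw [mem_preimage, hg z hz]
    exact hzt

/-- **Two domains with charts with the same parameter are mapped onto each other.** -/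
theorem transfer {D A B D' A' B' : Set ℂ} {m : ℝ} {φ φ' : ℂ → ℂ} {p p' : ℂ}
    (h : IsChart D A B m φ p) (h' : IsChart D' A' B' m φ' p') :
    ∃ f : ℂ → ℂ, ContinuousOn f (closure D) ∧ InjOn f (closure D) ∧ DifferentiableOn ℂ f D ∧
      f '' D = D' ∧ f '' A = A' ∧ f '' B = B' := by
  set F := dm φ p with hF
  set F' := dm φ' p' with hF'
  set K : Set ℂ := closedBall 0 1 with hK
  set g := Function.invFunOn F K with hg
  have hgF : ∀ z ∈ K, g (F z) = z := fun z hz => h.dm_inj.leftInvOn_invFunOn hz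
  have hb : ball (0:ℂ) 1 ⊆ K := ball_subset_closedBall
  have himg : ∀ S ⊆ K, (F' ∘ g) '' (F '' S) = F' '' S := by
    intro S hS
    rw [image_image]
    apply image_congr
    intro z hz
    rw [Function.comp_apply, hgF z (hS hz)]
  have hKA : (fun x : ℝ => cay x) '' Icc 0 m ⊆ K := by
    rintro _ ⟨x, -, rfl⟩
    exact mem_closedBall_zero_iff.2 (norm_cay_eq (by simp)).le
  have hKB : insert 1 ((fun x : ℝ => cay x) '' Ici 1) ⊆ K := by
    rw [insert_subset_iff]
    refine ⟨mem_closedBall_zero_iff.2 (by simp), ?_⟩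
    rintro _ ⟨x, -, rfl⟩
    exact mem_closedBall_zero_iff.2 (norm_cay_eq (by simp)).le
  refine ⟨F' ∘ g, ?_, ?_, ?_, ?_, ?_, ?_⟩
  · rw [← h.dm_closed]
    refine h'.dm_cont.comp (continuousOn_inv (isCompact_closedBall 0 1) h.dm_cont hgF) ?_
    rintro _ ⟨z, hz, rfl⟩
    rw [hgF z hz]
    exact hz
  · rw [← h.dm_closed]
    rintro _ ⟨z, hz, rfl⟩ _ ⟨w, hw, rfl⟩ e
    simp only [Function.comp_apply] at e
    rw [hgF z hz, hgF w hw] at e
    rw [h'.dm_inj hz hw e]
  · rw [← h.dm_image]
    have hnt : (ball (0:ℂ) 1).Nontrivial := by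
      refine ⟨0, mem_ball_self one_pos, 1/2, ?_, by norm_num⟩
      rw [mem_ball_zero_iff]
      norm_num
    have hd := Full.Jor.differentiableOn_inverse isOpen_ball (convex_ball (0:ℂ) 1).isPreconnected
      h.dm_diff (h.dm_inj.mono hb) hnt (fun z hz => hgF z (hb hz))
    refine h'.dm_diff.comp hd.2 ?_
    rintro _ ⟨z, hz, rfl⟩
    rw [hgF z (hb hz)]
    exact hz
  · rw [← h.dm_image, himg _ hb, h'.dm_image]
  · rw [← h.dm_A, himg _ hKA, h'.dm_A]
  · rw [← h.dm_B, himg _ hKB, h'.dm_B]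

end Pool.Agent.Cardy
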