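import Pool.Agent.Cardy.Exist
import Pool.Agent.Cardy.Transfer
import Pool.Agent.Cardy.Rect
import Pool.Agent.Rect.Main
import Pool.Agent.Rect.Mod.Conf.HC
import Pool.Agent.Rect.Mod.Conf.Map

/-!
# Cardy's formula for all Jordan domains, from the conformal invariance
-/

set_option autoImplicit false

open Set Filter Topology Metric Complex H47Perc Full

namespace Pool.Agent.Cardy

lemma mm_RR {m : ℝ} (h0 : 0 < m) (h1 : m < 1) : RConf.mm (RConf.RR m) = m := by
  have hR := RConf.RR_pos h0 h1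
  have e := RConf.RR_mm hR
  rcases lt_trichotomy (RConf.mm (RConf.RR m)) m with h | h | h
  · have := RConf.RR_strictAnti (RConf.mm_pos hR) h h1
    rw [e] at this
    exact absurd this (lt_irrefl _)
  · exact h
  · have := RConf.RR_strictAnti h0 h (RConf.mm_lt_one hR)
    rw [e] at this
    exact absurd this (lt_irrefl _)

lemma cardy_RR {m : ℝ} (h0 : 0 < m) (h1 : m < 1) :
    RectMod.cardy (RConf.RR m) = RectMod.Stmt.cardyF m := by
  have h := RConf.cardy_eq (RConf.RR_pos h0 h1)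
  rw [mm_RR h0 h1] at h
  exact h

lemma pC_lim {ρ : ℝ} (hρ : 0 < ρ) (k : ℕ → ℤ) (hk : Tendsto (fun n => (k n : ℝ) / n) atTop (𝓝 ρ)) :
    Tendsto (fun n : ℕ => RC.pC 0 n (-(k n)) 0) atTop (𝓝 (RectMod.cardy ρ)) := by
  refine RC.tendsto_pC RectMod.cardy_continuousOn (fun U hU r hr => by
    rw [Pool.Agent.Rect.lattice_P.H_eq_cardy U hU one_pos hr, div_one]) ?_ hρ ?_
  · simp only [sub_zero]
    exact tendsto_natCast_atTop_atTop
  · refine hk.congr fun n => ?_
    push_cast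
    ring

/-- the rectangle with the chart with parameter `m` -/
theorem rect_limit {m L : ℝ} (h0 : 0 < m) (h1 : m < 1)
    (h : TendsJ (Dd (RConf.RR m)) Ad (Bd (RConf.RR m)) L) : L = RectMod.Stmt.cardyF m := by
  rw [← cardy_RR h0 h1]
  exact rect_id (RConf.RR_pos h0 h1) (pC_lim (RConf.RR_pos h0 h1)) h

/-- **Cardy's formula for all Jordan domains**, from conformal invariance -/
theorem cardy_inv (hQ : Q1J) {D A B : Set ℂ} (h : IsJordan D A B) {m : ℝ} {φ : ℂ → ℂ} {p : ℂ}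
    (h0 : 0 < m) (h1 : m < 1) (hφ : IsChart D A B m φ p) :
    TendsJ D A B (RectMod.Stmt.cardyF m) ∧
      ∀ f : ℂ → ℂ, ContinuousOn f (closure D) → InjOn f (closure D) → DifferentiableOn ℂ f D →
        TendsJ (f '' D) (f '' A) (f '' B) (RectMod.Stmt.cardyF m) := by
  obtain ⟨L, hL, hf⟩ := hQ D A B h
  obtain ⟨ψ, hψ⟩ := RConf.rectangleMap_exists m h0 h1
  obtain ⟨f, f1, f2, f3, f4, f5, f6⟩ := transfer hφ (diag_chart hψ (RConf.RR_pos h0 h1) h0 h1)
  have h2 := hf f f1 f2 f3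
  rw [f4, f5, f6] at h2
  rw [← rect_limit h0 h1 h2]
  exact ⟨hL, hf⟩

end Pool.Agent.Cardy
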