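import Pool.Agent.Cardy.Chart
import Pool.Agent.Rect.Mod.Stmt

/-!
# The charts of the rectangles with sides in the diagonal directions
-/

set_option autoImplicit false

open Set Filter Topology Metric Complex

namespace Pool.Agent.Cardy

/-- the open rectangle with sides in the diagonal directions -/
def Dd (ρ : ℝ) : Set ℂ := {z | 0 < z.re + z.im ∧ z.re + z.im < 1 ∧ -ρ < z.re - z.im ∧ z.re - z.im < 0}

/-- the first side of length one -/
def Ad : Set ℂ := {z | 0 ≤ z.re + z.im ∧ z.re + z.im ≤ 1 ∧ z.re - z.im = 0}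

/-- the second side of length one -/
def Bd (ρ : ℝ) : Set ℂ := {z | 0 ≤ z.re + z.im ∧ z.re + z.im ≤ 1 ∧ z.re - z.im = -ρ}

section

variable {ρ m : ℝ} {φ : ℂ → ℂ}

/-- the types of boundary points -/
lemma real_type (h : RectMod.Stmt.IsRectangleMap 1 ρ m φ) (x : ℝ) :
    (x < 0 ∧ (φ x).re = 0 ∧ 0 < (φ x).im ∧ (φ x).im < ρ) ∨
    (x = 0 ∧ (φ x).re = 0 ∧ (φ x).im = 0) ∨
    (x ∈ Ioo 0 m ∧ (φ x).im = 0 ∧ 0 < (φ x).re ∧ (φ x).re < 1) ∨
    (x = m ∧ (φ x).re = 1 ∧ (φ x).im = 0) ∨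
    (x ∈ Ioo m 1 ∧ (φ x).re = 1 ∧ 0 < (φ x).im ∧ (φ x).im < ρ) ∨
    (x = 1 ∧ (φ x).re = 1 ∧ (φ x).im = ρ) ∨
    (1 < x ∧ (φ x).im = ρ ∧ 0 < (φ x).re ∧ (φ x).re < 1) := by
  rcases lt_trichotomy x 0 with h0 | h0 | h0
  · left
    have := h.left_bij.mapsTo h0
    exact ⟨h0, h.left x h0, this.1, this.2⟩
  · right; left
    subst h0
    rw [ofReal_zero, h.corner_zero]
    simp
  rcases lt_trichotomy x m with h1 | h1 | h1
  · right; right; left
    have := h.lower_bij.mapsTo (⟨h0, h1⟩ : x ∈ Ioo 0 m)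
    exact ⟨⟨h0, h1⟩, h.lower x h0 h1, this.1, this.2⟩
  · right; right; right; left
    subst h1
    rw [h.corner_m]
    simp
  rcases lt_trichotomy x 1 with h2 | h2 | h2
  · right; right; right; right; left
    have := h.right_bij.mapsTo (⟨h1, h2⟩ : x ∈ Ioo m 1)
    exact ⟨⟨h1, h2⟩, h.right x h1 h2, this.1, this.2⟩
  · right; right; right; right; right; left
    subst h2
    rw [ofReal_one, h.corner_one]
    simp
  · right; right; right; right; right; right
    have := h.upper_bij.mapsTo h2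
    exact ⟨h2, h.upper x h2, this.1, this.2⟩

lemma real_inj (h : RectMod.Stmt.IsRectangleMap 1 ρ m φ) (hρ : 0 < ρ) {x y : ℝ} (e : φ x = φ y) :
    x = y := by
  have e1 := congrArg Complex.re e
  have e2 := congrArg Complex.im e
  rcases real_type h x with ⟨a1, a2, a3, a4⟩ | ⟨a1, a2, a3⟩ | ⟨a1, a2, a3, a4⟩ | ⟨a1, a2, a3⟩ |
      ⟨a1, a2, a3, a4⟩ | ⟨a1, a2, a3⟩ | ⟨a1, a2, a3, a4⟩ <;>
    rcases real_type h y with ⟨b1, b2, b3, b4⟩ | ⟨b1, b2, b3⟩ | ⟨b1, b2, b3, b4⟩ | ⟨b1, b2, b3⟩ |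
      ⟨b1, b2, b3, b4⟩ | ⟨b1, b2, b3⟩ | ⟨b1, b2, b3, b4⟩ <;>
    first
      | (exfalso; linarith)
      | exact a1.trans b1.symm
      | exact h.left_bij.injOn a1 b1 e2
      | exact h.lower_bij.injOn a1 b1 e1
      | exact h.right_bij.injOn a1 b1 e2
      | exact h.upper_bij.injOn a1 b1 e1

/-- a rectangle map is a chart -/
theorem rect_chart (h : RectMod.Stmt.IsRectangleMap 1 ρ m φ) (hρ : 0 < ρ) (h0 : 0 < m) (h1 : m < 1) :
    IsChart {w : ℂ | 0 < w.re ∧ w.re < 1 ∧ 0 < w.im ∧ w.im < ρ}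
      {w : ℂ | 0 ≤ w.re ∧ w.re ≤ 1 ∧ w.im = 0} {w : ℂ | 0 ≤ w.re ∧ w.re ≤ 1 ∧ w.im = ρ} m φ
      (ρ * I) := by
  have hin : ∀ z : ℂ, 0 < z.im → 0 < (φ z).re ∧ (φ z).re < 1 ∧ 0 < (φ z).im ∧ (φ z).im < ρ :=
    fun z hz => h.bijective.mapsTo hz
  have hreal : ∀ z : ℂ, z.im = 0 → z = ((z.re : ℝ) : ℂ) := fun z hz => Complex.ext (by simp) (by simp [hz])
  refine ⟨h.holomorphic, h.bijective.image_eq, h.continuous, ?_, h.corner_infinity, ?_, ?_, ?_⟩
  · intro z hz w hw e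
    rw [mem_ofPred_eq] at hz hw
    rcases hz.lt_or_eq with hz | hz <;> rcases hw.lt_or_eq with hw | hw
    · exact h.bijective.injOn hz hw e
    · exfalso
      have a := hin z hz
      rw [e, hreal w hw.symm] at a
      obtain ⟨c1, c2, c3, c4⟩ := a
      rcases real_type h w.re with ⟨b1, b2, b3, b4⟩ | ⟨b1, b2, b3⟩ | ⟨b1, b2, b3, b4⟩ | ⟨b1, b2, b3⟩ |
        ⟨b1, b2, b3, b4⟩ | ⟨b1, b2, b3⟩ | ⟨b1, b2, b3, b4⟩ <;> linarith
    · exfalso
      have a := hin w hw
      rw [← e, hreal z hz.symm] at a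
      obtain ⟨c1, c2, c3, c4⟩ := a
      rcases real_type h z.re with ⟨b1, b2, b3, b4⟩ | ⟨b1, b2, b3⟩ | ⟨b1, b2, b3, b4⟩ | ⟨b1, b2, b3⟩ |
        ⟨b1, b2, b3, b4⟩ | ⟨b1, b2, b3⟩ | ⟨b1, b2, b3, b4⟩ <;> linarith
    · rw [hreal z hz.symm, hreal w hw.symm] at e ⊢
      rw [real_inj h hρ e]
  · intro z hz e
    have e1 := congrArg Complex.re e
    have e2 := congrArg Complex.im e
    simp only [re_ofReal_mul, im_ofReal_mul, I_re, I_im, mul_zero, mul_one] at e1 e2
    rcases hz.lt_or_eq with hz | hz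
    · obtain ⟨c1, c2, c3, c4⟩ := hin z hz
      linarith
    · rw [hreal z hz.symm] at e1 e2
      rcases real_type h z.re with ⟨b1, b2, b3, b4⟩ | ⟨b1, b2, b3⟩ | ⟨b1, b2, b3, b4⟩ | ⟨b1, b2, b3⟩ |
        ⟨b1, b2, b3, b4⟩ | ⟨b1, b2, b3⟩ | ⟨b1, b2, b3, b4⟩ <;> linarith
  · ext w
    constructor
    · rintro ⟨x, ⟨hx0, hx1⟩, rfl⟩
      rw [mem_ofPred_eq]
      rcases real_type h x with ⟨b1, b2, b3, b4⟩ | ⟨b1, b2, b3⟩ | ⟨b1, b2, b3, b4⟩ | ⟨b1, b2, b3⟩ |
        ⟨b1, b2, b3, b4⟩ | ⟨b1, b2, b3⟩ | ⟨b1, b2, b3, b4⟩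
      · linarith
      · exact ⟨by linarith, by linarith, b3⟩
      · exact ⟨by linarith, by linarith, b2⟩
      · exact ⟨by linarith, by linarith, b3⟩
      · linarith [b1.1]
      · linarith
      · linarith
    · rintro ⟨a1, a2, a3⟩
      rcases a1.lt_or_eq with a1 | a1
      · rcases a2.lt_or_eq with a2 | a2
        · obtain ⟨x, hx, e⟩ := h.lower_bij.surjOn ⟨a1, a2⟩
          exact ⟨x, ⟨hx.1.le, hx.2.le⟩, Complex.ext e (by rw [h.lower x hx.1 hx.2, a3])⟩
        · refine ⟨m, ⟨h0.le, le_rfl⟩, ?_⟩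
          simp only
          rw [h.corner_m]
          exact Complex.ext (by simp [a2]) (by simp [a3])
      · refine ⟨0, ⟨le_rfl, h0.le⟩, ?_⟩
        simp only
        rw [ofReal_zero, h.corner_zero]
        exact Complex.ext (by simp [← a1]) (by simp [a3])
  · ext w
    constructor
    · rintro (rfl | ⟨x, hx1, rfl⟩)
      · rw [mem_ofPred_eq]
        simp
      · rw [mem_Ici] at hx1
        rw [mem_ofPred_eq]
        rcases real_type h x with ⟨b1, b2, b3, b4⟩ | ⟨b1, b2, b3⟩ | ⟨b1, b2, b3, b4⟩ | ⟨b1, b2, b3⟩ |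
          ⟨b1, b2, b3, b4⟩ | ⟨b1, b2, b3⟩ | ⟨b1, b2, b3, b4⟩
        · linarith
        · linarith
        · linarith [b1.2]
        · linarith
        · linarith [b1.2]
        · exact ⟨by linarith, by linarith, b3⟩
        · exact ⟨by linarith, by linarith, b2⟩
    · rintro ⟨a1, a2, a3⟩
      rcases a1.lt_or_eq with a1 | a1
      · right
        rcases a2.lt_or_eq with a2 | a2
        · obtain ⟨x, hx, e⟩ := h.upper_bij.surjOn ⟨a1, a2⟩
          exact ⟨x, mem_Ici.2 (le_of_lt hx), Complex.ext e (by rw [h.upper x hx, a3])⟩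
        · refine ⟨1, mem_Ici.2 le_rfl, ?_⟩
          simp only
          rw [ofReal_one, h.corner_one]
          exact Complex.ext (by simp [a2]) (by simp [a3])
      · left
        exact Complex.ext (by simp [← a1]) (by simp [a3])

end

/-- images of charts under injective entire maps -/
lemma IsChart.comp {D A B : Set ℂ} {m : ℝ} {φ : ℂ → ℂ} {p : ℂ} (h : IsChart D A B m φ p)
    {g : ℂ → ℂ} (hg : Differentiable ℂ g) (hi : Function.Injective g) :
    IsChart (g '' D) (g '' A) (g '' B) m (g ∘ φ) (g p) := by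
  refine ⟨hg.comp_differentiableOn h.holomorphic, ?_, hg.continuous.comp_continuousOn h.continuous,
    hi.comp_injOn h.injective, (hg.continuous.tendsto p).comp h.infinity,
    fun z hz e => h.ne_infinity z hz (hi e), ?_, ?_⟩
  · rw [image_comp, h.image_eq]
  · rw [← h.image_A, image_image]; rfl
  · rw [← h.image_B, image_insert_eq, image_image]; rfl

/-- the rotation by 45 degrees which maps the unit segment of the real line to the diagonal -/
noncomputable def rot (z : ℂ) : ℂ := (1 + I) / 2 * z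

lemma rot_diff : Differentiable ℂ rot := by
  unfold rot
  fun_prop

lemma one_add_I_ne : ((1 : ℂ) + I) / 2 ≠ 0 := by
  intro e
  have := congrArg Complex.re e
  simp at this

lemma rot_inj : Function.Injective rot := fun _ _ e => mul_left_cancel₀ one_add_I_ne e

lemma rot_eq {z w : ℂ} : rot z = w ↔ z = (1 - I) * w := by
  unfold rot
  constructor
  · rintro rfl
    linear_combination (z / 2) * I_sq
  · rintro rfl
    linear_combination (-(w / 2)) * I_sq

lemma rot_image (S : Set ℂ) : rot '' S = {w | (1 - I) * w ∈ S} := by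
  ext w
  constructor
  · rintro ⟨z, hz, e⟩
    rw [rot_eq] at e
    rw [mem_ofPred_eq, ← e]
    exact hz
  · intro hw
    exact ⟨(1 - I) * w, hw, rot_eq.2 rfl⟩

lemma one_sub_I_re (w : ℂ) : ((1 - I) * w).re = w.re + w.im := by simp

lemma one_sub_I_im (w : ℂ) : ((1 - I) * w).im = -(w.re - w.im) := by
  simp
  ring

/-- the diagonal rectangle has a chart with parameter `m` -/
theorem diag_chart {ρ m : ℝ} {φ : ℂ → ℂ} (h : RectMod.Stmt.IsRectangleMap 1 ρ m φ) (hρ : 0 < ρ)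
    (h0 : 0 < m) (h1 : m < 1) : IsChart (Dd ρ) Ad (Bd ρ) m (rot ∘ φ) (rot (ρ * I)) := by
  have h2 := (rect_chart h hρ h0 h1).comp rot_diff rot_inj
  rw [rot_image, rot_image, rot_image] at h2
  simp only [mem_ofPred_eq, one_sub_I_re, one_sub_I_im] at h2
  convert h2 using 1
  · ext w
    simp only [Dd, mem_ofPred_eq]
    constructor
    · rintro ⟨a, b, c, d⟩
      exact ⟨a, b, by linarith, by linarith⟩
    · rintro ⟨a, b, c, d⟩
      exact ⟨a, b, by linarith, by linarith⟩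
  · ext w
    simp only [Ad, mem_ofPred_eq, neg_eq_zero]
  · ext w
    simp only [Bd, mem_ofPred_eq]
    constructor
    · rintro ⟨a, b, c⟩
      exact ⟨a, b, by linarith⟩
    · rintro ⟨a, b, c⟩
      exact ⟨a, b, by linarith⟩

end Pool.Agent.Cardy
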