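import Pool.Agent.Rect.Main
import Pool.Agent.Rect.Mod.Conf.HC
import Pool.Agent.Rect.Mod.Conf.Map

/-!
Critical bond percolation on the square lattice: Cardy's formula for all rectangles whose sides are
parallel to the diagonals of the lattice.
-/

set_option autoImplicit false

open H47Perc Set Filter Topology

namespace Pool.Agent.Cardy.RectanglesResult

/-- the vertices `(x, y)` of the square lattice with `a ≤ x + y ≤ b` and `c ≤ x - y ≤ d` -/
noncomputable def rectangle (a b c d : ℤ) : Finset (ℤ × ℤ) :=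
  (Finset.Icc (-(|a| + |b| + |c| + |d|), -(|a| + |b| + |c| + |d|))
    (|a| + |b| + |c| + |d|, |a| + |b| + |c| + |d|)).filter
    (fun z => a ≤ z.1 + z.2 ∧ z.1 + z.2 ≤ b ∧ c ≤ z.1 - z.2 ∧ z.1 - z.2 ≤ d)

/-- some vertex of the side `x - y = c` is joined by open edges to some vertex of the side
`x - y = d` -/
def Crossing (c d : ℤ) (ω : Finset (Sym2 (ℤ × ℤ))) : Prop :=
  ∃ z z' : ℤ × ℤ, z.1 - z.2 = c ∧ z'.1 - z'.2 = d ∧ Joined ω z z'

/-- Cardy's function of the cross-ratio -/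
noncomputable def cardyF (a : ℝ) : ℝ :=
  Real.Gamma (2 / 3) / Real.Gamma (1 / 3) ^ 2 * ∫ t in (0 : ℝ)..a, (t * (1 - t)) ^ (-(2 / 3) : ℝ)

/-- `φ` is a conformal map of the upper half-plane onto the rectangle `0 < re < a`, `0 < im < b`,
continuous up to the boundary, with the boundary values: `(0,m)` = lower side, `(m,1)` = right side,
`(1,∞)` = upper side, `(-∞,0)` = left side; `0`, `m`, `1`, `∞` are mapped to the four corners -/
structure IsRectangleMap (a b m : ℝ) (φ : ℂ → ℂ) : Prop where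
  holomorphic : DifferentiableOn ℂ φ {z | 0 < z.im}
  bijective : BijOn φ {z | 0 < z.im} {w | 0 < w.re ∧ w.re < a ∧ 0 < w.im ∧ w.im < b}
  continuous : ContinuousOn φ {z | 0 ≤ z.im}
  corner_zero : φ 0 = 0
  lower : ∀ x : ℝ, 0 < x → x < m → (φ x).im = 0
  lower_bij : BijOn (fun x : ℝ => (φ x).re) (Ioo 0 m) (Ioo 0 a)
  corner_m : φ m = a
  right : ∀ x : ℝ, m < x → x < 1 → (φ x).re = a
  right_bij : BijOn (fun x : ℝ => (φ x).im) (Ioo m 1) (Ioo 0 b)
  corner_one : φ 1 = a + b * Complex.I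
  upper : ∀ x : ℝ, 1 < x → (φ x).im = b
  upper_bij : BijOn (fun x : ℝ => (φ x).re) (Ioi 1) (Ioo 0 a)
  corner_infinity : Tendsto φ (Bornology.cobounded ℂ ⊓ 𝓟 {z | 0 ≤ z.im}) (𝓝 (b * Complex.I))
  left : ∀ x : ℝ, x < 0 → (φ x).re = 0
  left_bij : BijOn (fun x : ℝ => (φ x).im) (Iio 0) (Ioo 0 b)

/-- **Cardy's formula** for the rectangles with sides parallel to the diagonals of the square
lattice: for every `ρ > 0` there is `m` in `(0,1)` such that the upper half-plane is mapped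
conformally onto the rectangle `(0,1) × (0,ρ)`, with `0, m, 1, ∞` mapped to the corners and `(0,m)`,
`(1,∞)` to the two sides of length 1, and such that the probability that the sides `x - y = c` and
`x - y = d` of the rectangle `a ≤ x + y ≤ b`, `c ≤ x - y ≤ d` are joined by open edges inside it tends
to `cardyF m` as `b - a → ∞` and `(d - c) / (b - a) → ρ`. -/
theorem result : ∀ ρ : ℝ, 0 < ρ → ∃ m : ℝ, 0 < m ∧ m < 1 ∧
    (∃ φ : ℂ → ℂ, IsRectangleMap 1 ρ m φ) ∧
    ∀ ε : ℝ, 0 < ε → ∃ δ : ℝ, 0 < δ ∧ ∃ N : ℤ, ∀ a b c d : ℤ, N ≤ b - a →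
      |((d - c : ℤ) : ℝ) / ((b - a : ℤ) : ℝ) - ρ| < δ →
      |perc half (rectangle a b c d) (Crossing c d) - cardyF m| < ε := by
  intro ρ hρ
  obtain ⟨m, hm0, hm1, ⟨φ, h⟩, hε⟩ := RectMod.Stmt.of_lattice Pool.Agent.Rect.lattice_P
    (RConf.hC_of_map RConf.rectangleMap_exists) ρ hρ
  exact ⟨m, hm0, hm1, ⟨φ, ⟨h.holomorphic, h.bijective, h.continuous, h.corner_zero, h.lower,
    h.lower_bij, h.corner_m, h.right, h.right_bij, h.corner_one, h.upper, h.upper_bij,
    h.corner_infinity, h.left, h.left_bij⟩⟩, hε⟩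

end Pool.Agent.Cardy.RectanglesResult
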